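import Pool.Agent.W643.CE.OddExt

/-!
# Central extensions and the odd Chern character of invertible matrices over group algebras

`K` a field of characteristic zero, `G` an arbitrary group, `u` an invertible matrix over `K[G]`
(for example over `ℤ[G]`) with inverse `v`, `α : G → K` additive.

(1) For every central extension `A → H → G` and all `n` the matrices `u`, `v` lift to matrices
`U`, `V` over `K[H]` with `U * V - 1` and `V * U - 1` in `I ^ (n + 1)`, where `I` is the kernel of
`K[H] → K[G]`; and for all such lifts, `1 ≤ m ≤ n` and additive maps `μ_1, …, μ_m : A → K`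
`∑_{x y ∈ A} tr(V_x U_y) α(y) μ_1(x y) ⋯ μ_m(x y) = 0`.
This is the value of the class of `u` in `K_1(KG)` on the cup product of `α ∈ H^1(G; K)` with the
`m` classes of `H^2(G; K)` defined by the `μ_i` and the extension, through the component at the
conjugacy class of `1` of the Chern-Connes character.

(2) For every two-cocycle `c : G × G → K` with `c (1, 1) = 0`
`∑_g tr(v_{g⁻¹} u_g) c(g⁻¹, g) α(g) = ∑_{w x y z = 1} tr(v_w u_x v_y u_z) c(w, x) α(z)`,
where `u = ∑ u_g g` and `v = ∑ v_g g` with matrices `u_g`, `v_g` over `K`.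
-/

set_option autoImplicit false

namespace Pool.Agent.Results.MP_8f66f0_al.CentralOddChern

universe u1 u2 u3 u4

/-- the kernel of the ring homomorphism `K[H] → K[G]` induced by `π : H → G` -/
noncomputable def I (K : Type u1) [Field K] {H : Type u3} [Group H] {G : Type u2} [Group G]
    (π : H →* G) : Submodule K (MonoidAlgebra K H) :=
  LinearMap.ker (MonoidAlgebra.mapDomainAlgHom K K π).toLinearMap

/-- the matrix of the coefficients at `g` -/
def cf {K : Type u1} [Field K] {G : Type u2} {d : Type u4} (e : Matrix d d (MonoidAlgebra K G))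
    (g : G) : Matrix d d K := Matrix.of fun i j => (e i j).coeff g

open Classical in
theorem result (K : Type u1) [Field K] [CharZero K] (G : Type u2) [Group G]
    (d : Type u4) [Fintype d] [DecidableEq d] (u v : Matrix d d (MonoidAlgebra K G))
    (huv : u * v = 1) (hvu : v * u = 1) (α : G → K) (hα : ∀ x y, α (x * y) = α x + α y) :
    (∀ (H : Type u3) [Group H] (π : H →* G), Function.Surjective π →
      (∀ a ∈ π.ker, ∀ h : H, a * h = h * a) → ∀ n : ℕ,
        (∃ U V : Matrix d d (MonoidAlgebra K H),
          U.map (MonoidAlgebra.mapDomainAlgHom K K π) = u ∧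
          V.map (MonoidAlgebra.mapDomainAlgHom K K π) = v ∧
          (∀ i j, (U * V - 1) i j ∈ (I K π) ^ (n + 1)) ∧
          (∀ i j, (V * U - 1) i j ∈ (I K π) ^ (n + 1))) ∧
        ∀ U V : Matrix d d (MonoidAlgebra K H),
          U.map (MonoidAlgebra.mapDomainAlgHom K K π) = u →
          V.map (MonoidAlgebra.mapDomainAlgHom K K π) = v →
          (∀ i j, (U * V - 1) i j ∈ (I K π) ^ (n + 1)) →
          (∀ i j, (V * U - 1) i j ∈ (I K π) ^ (n + 1)) →
          ∀ m : ℕ, 1 ≤ m → m ≤ n → ∀ μ : Fin m → π.ker → K,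
            (∀ i a b, μ i (a * b) = μ i a + μ i b) →
            ∑ i, ∑ j, ((V i j).coeff.sum fun x b => (U j i).coeff.sum fun y a =>
              b * a * α (π y) *
                (if h : x * y ∈ π.ker then ∏ l, μ l ⟨x * y, h⟩ else 0)) = 0) ∧
    (∀ c : G → G → K, (∀ x y z, c x y + c (x * y) z = c y z + c x (y * z)) → c 1 1 = 0 →
      ∀ S : Finset G, (∀ i j g, (u i j).coeff g ≠ 0 → g ∈ S) →
        (∀ i j g, (v i j).coeff g ≠ 0 → g ∈ S) →
        ∑ g ∈ S, (cf v g⁻¹ * cf u g).trace * c g⁻¹ g * α g =
          ∑ w ∈ S, ∑ x ∈ S, ∑ z ∈ S,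
            (cf v w * cf u x * cf v (z * w * x)⁻¹ * cf u z).trace * c w x * α z) := by
  refine ⟨?_, ?_⟩
  · intro H _ π hπ hcen n
    refine ⟨?_, ?_⟩
    · exact Pool.Agent.W643.CE.exists_lift_inv hπ u v huv hvu n
    · intro U V _ _ hUV hVU m hm hmn μ hμ
      rw [Pool.Agent.W643.CE.tf_explicit (π := π) μ (fun y => α (π y)) U V,
        Pool.Agent.H23R2.Ch.tf_mul_comm _ (Pool.Agent.W643.CE.Ph_comm hcen _ _)]
      have hα1 : α 1 = 0 := by
        have := hα 1 1
        rw [mul_one] at this
        exact left_eq_add.mp this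
      refine Pool.Agent.W643.CE.odd_main hcen hm hmn _ ?_ U V hUV hVU ?_ ?_
      · intro i a ha b hb
        simp only [dif_pos ha, dif_pos hb, dif_pos (π.ker.mul_mem ha hb)]
        exact hμ i ⟨a, ha⟩ ⟨b, hb⟩
      · intro x y
        show α (π (x * y)) = _
        rw [map_mul, hα]
      · intro a ha
        show α (π a) = 0
        rw [MonoidHom.mem_ker.mp ha, hα1]
  · intro c hc h1 S hSu hSv
    exact Pool.Agent.W643.CE.degree_three u v huv hvu c hc h1 α hα S hSu hSv

end Pool.Agent.Results.MP_8f66f0_al.CentralOddChern
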