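import Pool.Agent.W647.HX1

/-!
# The integral odd Chern character of `K₁` of group rings

Let `G` be a group, for example a torsion-free one, and `R` a ring, for example `ℤ`. The classes in
`H^{2k+1}(G; A)` pair with the invertible matrices `u` over `R[G]`: the class of the alternating
homogeneous cocycle `c` is sent to `k! τ`, where
`τ = ∑ tr(v_{w 0} u_{w 1} v_{w 2} ⋯ u_{w (2k+1)}) ⊗ c (1, w₀, w₀ w₁, …, w₀ ⋯ w_{2k})`,
the sum over all `w ∈ G ^ (2k+2)` with product `1`, `v` is the inverse of `u` and `v_s`, `u_s` are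
the matrices of the coefficients at `s`. This is the component
`K₁(R[G]) → H_{2k+1}(G; R / [R, R])`, at the conjugacy class of `1`, of the integral Chern character
(Dennis, Connes, Karoubi, Loday). If the Whitehead group `Wh(G)` is zero, then it is zero on
`K₁(ℤ[G])`, for all `k ≥ 1`, with all coefficients. We prove, with all coefficients, and all `R`, that
its values are divisible by all `N` which are prime to the orders of the elements of finite order
of `G`.
-/

set_option autoImplicit false

namespace Pool.Agent.Results.MP_8f66f0_al.OddChernAllCoefficients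

open Pool.Agent.W647.HX1

universe u1 u2 u3 u4 u5

/-- Let `T : R × A → M` be biadditive, `T (x y, a) = T (y x, a)`, let `u` be an invertible matrix over
`R[G]` with inverse `v`, `k ≥ 1` and `c` an alternating homogeneous cocycle of degree `2k+1` with
values in `A`, and `τ = ∑ T (tr(v_{w 0} u_{w 1} ⋯ u_{w (2k+1)}), c (1, w₀, …, w₀ ⋯ w_{2k}))`.

(1) `k! τ` is divisible in `M` by all `N ≥ 1` such that `G` has no element of order `p` for the
primes `p ∣ N`. (2) `τ = 0` if `N M = 0` for such an `N` which is prime to `k!`. (3) If `G` is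
torsion-free and `0` is the only element of `M` which is divisible by all `N ≥ 1`, then
`k! τ = 0`. -/
theorem result (G : Type u1) [Group G] (R : Type u2) [Ring R] (A : Type u3) [AddCommGroup A]
    (M : Type u4) [AddCommGroup M] (T : R →+ A →+ M) (hT : ∀ x y, T (x * y) = T (y * x))
    (d : Type u5) [Fintype d] [DecidableEq d] (u v : Matrix d d (MonoidAlgebra R G))
    (huv : u * v = 1) (hvu : v * u = 1) (k : ℕ) (hk : 1 ≤ k)
    (c : (Fin (2 * k + 1 + 1) → G) → A) (hc : IsAltCocycle c) :
    (∀ N : ℕ, N ≠ 0 → (∀ p : ℕ, p.Prime → p ∣ N → ∀ y : G, orderOf y ≠ p) →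
      ∃ y : M, k.factorial • oddTau T c v u = N • y) ∧
    (∀ N : ℕ, N ≠ 0 → (∀ p : ℕ, p.Prime → p ∣ N → ∀ y : G, orderOf y ≠ p) →
      (∀ y : M, N • y = 0) → N.Coprime k.factorial → oddTau T c v u = 0) ∧
    ((∀ y : G, IsOfFinOrder y → y = 1) → (∀ x : M, (∀ N : ℕ, N ≠ 0 → ∃ y, x = N • y) → x = 0) →
      k.factorial • oddTau T c v u = 0) := by
  have h1 : ∀ N : ℕ, N ≠ 0 → (∀ p : ℕ, p.Prime → p ∣ N → ∀ y : G, orderOf y ≠ p) →
      ∃ y : M, k.factorial • oddTau T c v u = N • y := fun N hN hp =>
    oddTau_dvd T hT (by omega) hc v u hvu huv N hN hp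
  refine ⟨h1, fun N hN hp hM hcop => ?_, fun hG hM => hM _ fun N hN => h1 N hN ?_⟩
  · obtain ⟨y, hy⟩ := h1 N hN hp
    rw [hM] at hy
    have h3 := Nat.gcd_eq_gcd_ab N k.factorial
    rw [hcop] at h3
    have h4 : ((N : ℤ) * (Nat.gcdA N k.factorial) +
        ((k.factorial : ℕ) : ℤ) * (Nat.gcdB N k.factorial)) • oddTau T c v u =
        oddTau T c v u := by
      rw [← h3, Nat.cast_one, one_smul]
    rw [add_smul, mul_smul, natCast_zsmul, hM, zero_add, mul_smul, natCast_zsmul, smul_comm, hy,
      smul_zero] at h4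
    exact h4.symm
  · intro p hp _ y hy
    have h5 : IsOfFinOrder y := orderOf_pos_iff.1 (hy ▸ hp.pos)
    have h6 := hG y h5
    rw [h6, orderOf_one] at hy
    exact hp.one_lt.ne hy

end Pool.Agent.Results.MP_8f66f0_al.OddChernAllCoefficients
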