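import Pool.Agent.W647.HY4

/-!
# The integral odd Chern character of `K₁` of group rings at the elements `g ≠ 1`

Let `G` be a group, for example a torsion-free one, `R` a ring, for example `ℤ`, `g ∈ G`. The
component of the integral odd Chern character of `K₁(R[G])` in the cyclic homology of `R[G]` at the
conjugacy class of `g` has values in the homology of `C(g) / ⟨g⟩` in all odd degrees
`2 k + 1 ≥ 1`, if `g` has infinite order. If the Whitehead group of the torsion-free group `G` is
zero, then these components are zero on `K₁(ℤ[G])` for all `g ≠ 1`. We prove that the values are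
divisible by all powers of the prime `p` (and zero, if they are in a `p`-adically separated group,
for example a finite `p`-group or `ℤ`) if the elements conjugate to `g` in the subgroup generated
by the supports are no `p`-th powers there; and, up to a fixed power of `p`, if they are no `p ^ r`-th
powers for some `r`.
-/

set_option autoImplicit false

namespace Pool.Agent.Results.MP_8f66f0_al.OddChernOffIdentity

open Pool.Agent.W647.HX1 Pool.Agent.W647.HV1

universe u1 u2 u3 u4 u5

/-- Let `T : R × A → M` be biadditive, `T (x y, a) = T (y x, a)`, let `u` be an invertible matrix over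
`R[G]` with inverse `v`, and let `H` be a subgroup containing the supports of the entries of `u` and
`v`. Let `g ∈ G`, let `p` be a prime and `b ≥ 0` such that no element of `H` which is conjugate to `g`
in `G` is a `p ^ (b + 1)`-th power in `H`. Let `c` be an `A`-valued class cocycle for `g` of degree
`2 k + 1 ≥ 1`, and `τ = ∑ T (tr (v_{w 0} u_{w 1} ⋯ u_{w (2 k + 1)}), c (t, t w₀, …, t w₀ ⋯ w_{2 k}))`,
the sum over all `w ∈ G ^ (2 k + 2)` whose product `y` is conjugate to `g`, where `t y t⁻¹ = g`.
(1) `k! p ^ (2 b) τ` is divisible in `M` by all powers of `p`. (2) If `M` has no `p`-torsion, and no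
nonzero element divisible by all powers of `p`, then `k! τ = 0`. -/
theorem result (G : Type u1) [Group G] (R : Type u2) [Ring R] (A : Type u3) [AddCommGroup A]
    (M : Type u4) [AddCommGroup M] (T : R →+ A →+ M) (hT : ∀ x y, T (x * y) = T (y * x))
    (d : Type u5) [Fintype d] [DecidableEq d] (u v : Matrix d d (MonoidAlgebra R G))
    (huv : u * v = 1) (hvu : v * u = 1) (H : Subgroup G)
    (hu : ∀ i j s, (u i j).coeff s ≠ 0 → s ∈ H) (hv : ∀ i j s, (v i j).coeff s ≠ 0 → s ∈ H)
    (g : G) (t : G → G) (ht : ∀ y, IsConj y g → t y * y * (t y)⁻¹ = g)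
    (p : ℕ) (hp : p.Prime) (b : ℕ)
    (hg : ∀ y ∈ H, IsConj y g → ∀ x ∈ H, x ^ p ^ (b + 1) ≠ y)
    (k : ℕ) (c : (Fin (2 * k + 1 + 1) → G) → A) (hc : IsClassCoc g c) :
    (∀ m : ℕ, ∃ y : M, (k.factorial * p ^ (2 * b)) • odTau T g t c (cm v) (cm u) = p ^ m • y) ∧
    ((∀ x : M, p • x = 0 → x = 0) → (∀ x : M, (∀ m : ℕ, ∃ y, x = p ^ m • y) → x = 0) →
      k.factorial • odTau T g t c (cm v) (cm u) = 0) := by
  have h1 : ∀ m : ℕ, ∃ y : M,
      (k.factorial * p ^ (2 * b)) • odTau T g t c (cm v) (cm u) = p ^ m • y :=
    odTau_height T hT ht hc v u hvu huv H hv hu hp b hg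
  refine ⟨h1, fun h2 h3 => ?_⟩
  have h4 := h3 _ h1
  rw [mul_comm, mul_smul] at h4
  have h5 : ∀ (n : ℕ) (x : M), p ^ n • x = 0 → x = 0 := by
    intro n
    induction n with
    | zero => intro x hx; simpa using hx
    | succ n ih =>
      intro x hx
      rw [pow_succ', mul_smul] at hx
      exact ih x (h2 _ hx)
  exact h5 _ _ h4

end Pool.Agent.Results.MP_8f66f0_al.OddChernOffIdentity
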